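import Pool.Agent.H32.RQ.Targets

/-!
# FJB: bounds of the Fejér weight and of the triangular function
-/

set_option autoImplicit false

open Finset Pool.Agent.H32.RQ

namespace Pool.Agent.H49.RQ

theorem norm_char {Q : ℕ} [NeZero Q] (a : ZMod Q) : ‖ZMod.stdAddChar a‖ = 1 := by
  rw [ZMod.stdAddChar_apply]
  exact Circle.norm_coe _

theorem char_int (Q : ℕ) [NeZero Q] (J : ℕ) (u : ℤ) :
    ‖(ZMod.stdAddChar (u : ZMod Q)) ^ J - 1‖ = 2 * |Real.sin (J * (Real.pi * u / Q))| := by
  rw [ZMod.stdAddChar_coe, ← Complex.exp_nat_mul]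
  have h : (J : ℂ) * (2 * Real.pi * Complex.I * (u : ℂ) / (Q : ℂ)) =
      Complex.I * ((2 * (J * (Real.pi * u / Q)) : ℝ) : ℂ) := by
    push_cast
    ring
  rw [h, Complex.norm_exp_I_mul_ofReal_sub_one]
  rw [Real.norm_eq_abs, abs_mul, abs_two]
  congr 2
  congr 1
  ring

theorem pf_FJB : T_FJB := by
  intro Q J _ hJ
  have hJ0 : (0 : ℝ) < J := by exact_mod_cast hJ
  have hQ0 : (0 : ℝ) < Q := by exact_mod_cast Nat.pos_of_ne_zero (NeZero.ne Q)
  refine ⟨fun u => ⟨?_, ?_⟩, fun a => ⟨?_, ?_⟩, ?_⟩
  · unfold fj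
    positivity
  · unfold fj
    rw [div_le_one (by positivity)]
    apply pow_le_pow_left₀ (norm_nonneg _)
    refine le_trans (norm_sum_le _ _) ?_
    rw [Finset.sum_congr rfl fun j _ => norm_char _]
    simp
  · unfold tri
    exact le_max_left _ _
  · unfold tri
    apply max_le zero_le_one
    have : 0 ≤ |((a.valMinAbs : ℤ) : ℝ)| / J := by positivity
    linarith
  · intro u hu
    unfold fj
    set z : ℂ := ZMod.stdAddChar (u : ZMod Q) with hz
    have hsum : ∑ j ∈ range J, ZMod.stdAddChar ((j : ZMod Q) * (u : ZMod Q)) =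
        ∑ j ∈ range J, z ^ j := by
      refine Finset.sum_congr rfl fun j _ => ?_
      rw [hz, ← AddChar.map_nsmul_eq_pow, nsmul_eq_mul]
    rw [hsum]
    by_cases hu0 : u = 0
    · have hz1 : z = 1 := by rw [hz, hu0]; simp
      rw [hz1]
      simp only [one_pow, sum_const, card_range, nsmul_eq_mul, mul_one, Complex.norm_natCast]
      rw [div_self (by positivity)]
      norm_num
    · -- the nonzero case
      have hua : (1 : ℝ) ≤ |(u : ℝ)| := by
        have : (1 : ℤ) ≤ |u| := Int.one_le_abs hu0
        exact_mod_cast this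
      have huQ : 2 * (J : ℝ) * |(u : ℝ)| ≤ Q := by exact_mod_cast hu
      have hpi := Real.pi_pos
      set t : ℝ := Real.pi * |(u : ℝ)| / Q with ht
      have ht0 : 0 < t := by positivity
      have hJt : J * t ≤ Real.pi / 2 := by
        rw [ht, mul_div_assoc', div_le_iff₀ hQ0]
        nlinarith
      have hJ1 : (1 : ℝ) ≤ J := by exact_mod_cast hJ
      have ht2 : t ≤ Real.pi / 2 := by nlinarith
      have habs : ∀ k : ℕ, |Real.sin (k * (Real.pi * u / Q))| = |Real.sin (k * t)| := by
        intro k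
        rcases le_total 0 (u : ℝ) with h | h
        · rw [ht, abs_of_nonneg h]
        · rw [ht, abs_of_nonpos h]
          have : (k : ℝ) * (Real.pi * -(u : ℝ) / Q) = -(k * (Real.pi * u / Q)) := by ring
          rw [this, Real.sin_neg, abs_neg]
      have hsint : 0 < Real.sin t := Real.sin_pos_of_pos_of_lt_pi ht0 (by linarith)
      have hn1 : ‖z - 1‖ = 2 * Real.sin t := by
        have := char_int Q 1 u
        rw [pow_one, ← hz, habs 1] at this
        rw [this, Nat.cast_one, one_mul, abs_of_pos hsint]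
      have hnJ : ‖z ^ J - 1‖ = 2 * |Real.sin (J * t)| := by
        rw [hz, char_int Q J u, habs J]
      have hz1 : z ≠ 1 := by
        intro h
        rw [h, sub_self, norm_zero] at hn1
        linarith
      rw [geom_sum_eq hz1, norm_div, hn1, hnJ]
      have hs1 : 2 / Real.pi * (J * t) ≤ Real.sin (J * t) :=
        Real.mul_le_sin (by positivity) hJt
      have hs2 : Real.sin t ≤ t := Real.sin_le ht0.le
      have hJs : 0 ≤ 2 / Real.pi * (J * t) := by positivity
      have hq : 2 / Real.pi * J ≤ 2 * |Real.sin (J * t)| / (2 * Real.sin t) := by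
        rw [le_div_iff₀ (by positivity)]
        have h1 : 2 / Real.pi * J * (2 * Real.sin t) ≤ 2 / Real.pi * J * (2 * t) :=
          mul_le_mul_of_nonneg_left (by linarith) (by positivity)
        have h2 : 2 / Real.pi * (J : ℝ) * (2 * t) = 2 * (2 / Real.pi * (J * t)) := by ring
        have h3 : Real.sin (J * t) ≤ |Real.sin (J * t)| := le_abs_self _
        linarith
      rw [le_div_iff₀ (by positivity)]
      have hq2 : (2 / Real.pi * J) ^ 2 ≤ (2 * |Real.sin (J * t)| / (2 * Real.sin t)) ^ 2 :=
        pow_le_pow_left₀ (by positivity) hq 2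
      refine le_trans ?_ hq2
      rw [mul_pow]
      apply mul_le_mul_of_nonneg_right _ (by positivity)
      rw [div_pow, le_div_iff₀ (by positivity)]
      have h4 := Real.pi_lt_d4
      nlinarith
end Pool.Agent.H49.RQ
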