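import Pool.Agent.H32.RQ.Targets

/-!
# PBD: the bounds for independent vectors
-/

set_option autoImplicit false

open Finset Pool.Agent.H32.RQ

namespace Pool.Agent.H49.RQ

theorem nu_le {s b : ℕ} (x : Fin s → ℤ) (hx : ∀ i, |x i| ≤ (b : ℤ) ^ 4) (p : Mon s) :
    |nu x p| ≤ (b : ℤ) ^ 8 := by
  unfold nu
  rw [abs_mul]
  calc |x p.1.1| * |x p.1.2| ≤ (b : ℤ) ^ 4 * (b : ℤ) ^ 4 :=
        mul_le_mul (hx _) (hx _) (abs_nonneg _) (by positivity)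
    _ = (b : ℤ) ^ 8 := by ring

theorem delta_le {s b : ℕ} (x y : Fin s → ℤ) (hx : ∀ i, |x i| ≤ (b : ℤ) ^ 4)
    (hy : ∀ i, |y i| ≤ (b : ℤ) ^ 4) (p q : Mon s) :
    (nu x p * nu y q - nu x q * nu y p).natAbs ≤ 2 * b ^ 16 := by
  have h1 : |nu x p * nu y q| ≤ (b : ℤ) ^ 16 := by
    rw [abs_mul]
    calc |nu x p| * |nu y q| ≤ (b : ℤ) ^ 8 * (b : ℤ) ^ 8 :=
          mul_le_mul (nu_le x hx _) (nu_le y hy _) (abs_nonneg _) (by positivity)
      _ = (b : ℤ) ^ 16 := by ring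
  have h2 : |nu x q * nu y p| ≤ (b : ℤ) ^ 16 := by
    rw [abs_mul]
    calc |nu x q| * |nu y p| ≤ (b : ℤ) ^ 8 * (b : ℤ) ^ 8 :=
          mul_le_mul (nu_le x hx _) (nu_le y hy _) (abs_nonneg _) (by positivity)
      _ = (b : ℤ) ^ 16 := by ring
  have h3 := abs_sub (nu x p * nu y q) (nu x q * nu y p)
  zify
  linarith

theorem rr_nonneg (hFJB : T_FJB) {s Q J : ℕ} [NeZero Q] (hJ : 1 ≤ J) (x y : Fin s → ℤ)
    (j k : ZMod Q) : 0 ≤ rr Q J x y j k :=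
  Finset.prod_nonneg fun _ _ => ((hFJB Q J hJ).2.1 _).1

theorem rr_le_one (hFJB : T_FJB) {s Q J : ℕ} [NeZero Q] (hJ : 1 ≤ J) (x y : Fin s → ℤ)
    (j k : ZMod Q) : rr Q J x y j k ≤ 1 :=
  Finset.prod_le_one (fun _ _ => ((hFJB Q J hJ).2.1 _).1) fun _ _ => ((hFJB Q J hJ).2.1 _).2

theorem rr_zero {s Q J : ℕ} [NeZero Q] (hJ : 1 ≤ J) (x y : Fin s → ℤ) (z : ZMod Q × ZMod Q)
    (hz : z ∉ zs Q J x y) : rr Q J x y z.1 z.2 = 0 := by
  unfold zs at hz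
  rw [Finset.mem_filter, not_and] at hz
  have h1 := hz (Finset.mem_univ _)
  push Not at h1
  obtain ⟨p, hp⟩ := h1
  refine Finset.prod_eq_zero (Finset.mem_univ p) ?_
  unfold tri
  apply max_eq_left
  have hJ0 : (0 : ℝ) < J := by exact_mod_cast hJ
  have h2 : (J : ℝ) ≤ |(((z.1 * ((nu x p : ℤ) : ZMod Q) + z.2 * ((nu y p : ℤ) : ZMod Q)).valMinAbs :
      ℤ) : ℝ)| := by exact_mod_cast hp
  have h3 : 1 ≤ |(((z.1 * ((nu x p : ℤ) : ZMod Q) + z.2 * ((nu y p : ℤ) : ZMod Q)).valMinAbs :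
      ℤ) : ℝ)| / J := by
    rw [le_div_iff₀ hJ0, one_mul]
    exact h2
  linarith

theorem sum_zs (hFJB : T_FJB) {s Q J : ℕ} [NeZero Q] (hJ : 1 ≤ J) (x y : Fin s → ℤ)
    (g : ZMod Q → ℝ) (C : ℝ) (hg : ∀ z ∈ zs Q J x y, g z.1 ≤ C)
    (hg0 : ∀ j, 0 ≤ g j) :
    ∑ j : ZMod Q, ∑ k : ZMod Q, g j * rr Q J x y j k ≤ (zs Q J x y).card * C := by
  have h1 : ∑ j : ZMod Q, ∑ k : ZMod Q, g j * rr Q J x y j k =
      ∑ z : ZMod Q × ZMod Q, g z.1 * rr Q J x y z.1 z.2 := by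
    rw [← Finset.univ_product_univ, Finset.sum_product]
  rw [h1]
  have h2 : ∑ z : ZMod Q × ZMod Q, g z.1 * rr Q J x y z.1 z.2 =
      ∑ z ∈ zs Q J x y, g z.1 * rr Q J x y z.1 z.2 := by
    symm
    apply Finset.sum_subset (Finset.subset_univ _)
    intro z _ hz
    rw [rr_zero hJ x y z hz, mul_zero]
  rw [h2, ← nsmul_eq_mul]
  refine Finset.sum_le_card_nsmul _ _ _ fun z hz => ?_
  calc g z.1 * rr Q J x y z.1 z.2 ≤ g z.1 * 1 :=
        mul_le_mul_of_nonneg_left (rr_le_one hFJB hJ x y _ _) (hg0 _)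
    _ ≤ C := by rw [mul_one]; exact hg z hz

theorem pf_PBD (hPXY : T_PXY) (hDLT : T_DLT) (_hPKP : T_PKP) (hKPB : T_KPB) (hFJB : T_FJB) :
    T_PBD := by
  intro s b c A J Q W T _ x y hs hb hA hbc hQ hJb hW hWQ hTQ hWT hx hy hdm
  have hb16 : 1 ≤ b ^ 16 := Nat.one_le_pow _ _ hb
  have hJ : 1 ≤ J := by omega
  have hJ0 : (0 : ℝ) < J := by exact_mod_cast hJ
  have hA0 : (0 : ℝ) < A := by exact_mod_cast hA
  have hQr : (Q : ℝ) = 2 * A * J := by exact_mod_cast hQ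
  have hQ0 : (0 : ℝ) < Q := by rw [hQr]; positivity
  obtain ⟨p, q, hpq⟩ := hDLT s (b ^ 4) x y (fun i => by exact_mod_cast hx.bd i)
    (fun i => by exact_mod_cast hy.bd i) (by
      obtain ⟨i, hi⟩ := hx.big
      exact ⟨i, by exact_mod_cast hi⟩) (by
      obtain ⟨i, hi⟩ := hy.big
      exact ⟨i, by exact_mod_cast hi⟩)
  obtain ⟨Δ, hΔ⟩ : ∃ Δ : ℕ, Δ = (nu x p * nu y q - nu x q * nu y p).natAbs := ⟨_, rfl⟩
  rw [← hΔ] at hpq
  have hdm1 : 1 ≤ dm x y := Nat.one_le_iff_ne_zero.mpr hdm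
  have hΔ1 : 1 ≤ Δ := by
    by_contra h
    have h0 : Δ = 0 := by omega
    rw [h0, mul_zero] at hpq
    have : 0 < (b ^ 4) ^ 2 * dm x y := by positivity
    omega
  have hΔJ : Δ ≤ J := by
    have := delta_le x y hx.bd hy.bd p q
    omega
  have hΔ0 : (0 : ℝ) < Δ := by exact_mod_cast hΔ1
  obtain ⟨hcard, hfreq⟩ := hPXY s b c A J Q W x y p q Δ hs hb hA hbc hQ hW hWQ hx hy hdm hΔ hΔ1 hΔJ
  have hbd : (b : ℝ) ^ 8 * dm x y ≤ 64 * Δ := by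
    have h1 : b ^ 8 * dm x y ≤ 64 * Δ := by
      calc b ^ 8 * dm x y = (b ^ 4) ^ 2 * dm x y := by ring
        _ ≤ 64 * Δ := hpq
    exact_mod_cast h1
  have hbd0 : (0 : ℝ) ≤ (b : ℝ) ^ 8 * dm x y := by positivity
  set Z : ℝ := ((zs Q J x y).card : ℝ) with hZ
  have hZ0 : 0 ≤ Z := Nat.cast_nonneg _
  constructor
  · unfold pp
    have h1 : ∑ j : ZMod Q, ∑ k : ZMod Q, rr Q J x y j k ≤ Z * 1 := by
      have := sum_zs (Q := Q) hFJB hJ x y (fun _ => 1) 1 (fun _ _ => le_rfl) (fun _ => zero_le_one)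
      simpa only [one_mul] using this
    rw [mul_one] at h1
    have h2 : (∑ j : ZMod Q, ∑ k : ZMod Q, rr Q J x y j k) / (Q : ℝ) ^ 2 *
        ((2 * (A : ℝ)) ^ 2 * (b : ℝ) ^ 8 * dm x y) =
        (∑ j : ZMod Q, ∑ k : ZMod Q, rr Q J x y j k) * ((b : ℝ) ^ 8 * dm x y) / (J : ℝ) ^ 2 := by
      rw [hQr]
      field_simp
    rw [h2, div_le_iff₀ (by positivity)]
    calc (∑ j : ZMod Q, ∑ k : ZMod Q, rr Q J x y j k) * ((b : ℝ) ^ 8 * dm x y)
        ≤ Z * (64 * Δ) := mul_le_mul h1 hbd hbd0 hZ0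
      _ = 64 * (Z * Δ) := by ring
      _ ≤ 64 * (9 * gm x y * (J : ℝ) ^ 2) := by linarith
      _ = 576 * gm x y * (J : ℝ) ^ 2 := by ring
  · intro hg
    unfold pk
    obtain ⟨hk1, hk2⟩ := hKPB Q W T hW hWQ hTQ hWT
    set C : ℝ := 2 * J * (b : ℝ) ^ 8 / Δ * T / Q with hC
    have hC0 : 0 ≤ C := by positivity
    have h1 : ∑ j : ZMod Q, ∑ k : ZMod Q, (1 - kap Q W T j) * rr Q J x y j k ≤ Z * C := by
      refine sum_zs (Q := Q) hFJB hJ x y (fun j => 1 - kap Q W T j) C ?_ ?_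
      · intro z hz
        obtain ⟨a, n, hz1, hn⟩ := hfreq hg z hz
        have h2 := hk2 a n z.1 hz1
        have h3 : |(n : ℝ)| * T / Q ≤ C := by
          rw [hC]
          apply div_le_div_of_nonneg_right _ hQ0.le
          apply mul_le_mul_of_nonneg_right _ (Nat.cast_nonneg _)
          rw [le_div_iff₀ hΔ0]
          exact_mod_cast hn
        show 1 - kap Q W T z.1 ≤ C
        linarith
      · intro j
        have := (hk1 j).2
        show 0 ≤ 1 - kap Q W T j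
        linarith
    have hT0 : (0 : ℝ) ≤ T := Nat.cast_nonneg _
    have hd0 : (0 : ℝ) ≤ dm x y := Nat.cast_nonneg _
    calc (∑ j : ZMod Q, ∑ k : ZMod Q, (1 - kap Q W T j) * rr Q J x y j k) / (Q : ℝ) ^ 2 *
          ((2 * (A : ℝ)) ^ 2 * (b : ℝ) ^ 8 * dm x y) * (2 * A * dm x y)
        ≤ (Z * C) / (Q : ℝ) ^ 2 *
          ((2 * (A : ℝ)) ^ 2 * (b : ℝ) ^ 8 * dm x y) * (2 * A * dm x y) := by
          apply mul_le_mul_of_nonneg_right _ (by positivity)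
          apply mul_le_mul_of_nonneg_right _ (by positivity)
          exact div_le_div_of_nonneg_right h1 (by positivity)
      _ = 2 * T * Z * ((b : ℝ) ^ 8 * dm x y) ^ 2 / (Δ * (J : ℝ) ^ 2) := by
          rw [hC, hQr]
          field_simp
      _ ≤ 576 * gm x y * (128 * T) := by
          rw [div_le_iff₀ (by positivity)]
          have h4 : ((b : ℝ) ^ 8 * dm x y) ^ 2 ≤ (64 * Δ) ^ 2 := pow_le_pow_left₀ hbd0 hbd 2
          calc 2 * T * Z * ((b : ℝ) ^ 8 * dm x y) ^ 2 ≤ 2 * T * Z * (64 * Δ) ^ 2 :=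
                mul_le_mul_of_nonneg_left h4 (by positivity)
            _ = 8192 * T * Δ * (Z * Δ) := by ring
            _ ≤ 8192 * T * Δ * (9 * gm x y * (J : ℝ) ^ 2) :=
                mul_le_mul_of_nonneg_left hcard (by positivity)
            _ = 576 * gm x y * (128 * T) * (Δ * (J : ℝ) ^ 2) := by ring

end Pool.Agent.H49.RQ
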